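import Pool.Agent.THS.StmtsT

/-!
Row COE of table ths: coercivity of a positive definite real matrix.
-/

namespace Pool.Agent.THS.H77

open scoped BigOperators

/-- the quadratic form -/
def qf {g : ℕ} (Y : Matrix (Fin g) (Fin g) ℝ) (x : Fin g → ℝ) : ℝ :=
  ∑ i, ∑ j, x i * Y i j * x j

theorem qf_smul {g : ℕ} (Y : Matrix (Fin g) (Fin g) ℝ) (t : ℝ) (x : Fin g → ℝ) :
    qf Y (fun i => t * x i) = t ^ 2 * qf Y x := by
  unfold qf
  rw [Finset.mul_sum]
  refine Finset.sum_congr rfl fun i _ => ?_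
  rw [Finset.mul_sum]
  refine Finset.sum_congr rfl fun j _ => ?_
  ring

theorem qf_pos {g : ℕ} (Y : Matrix (Fin g) (Fin g) ℝ) (hY : Y.PosDef) (x : Fin g → ℝ)
    (hx : x ≠ 0) : 0 < qf Y x := by
  have h := (Matrix.posDef_iff_dotProduct_mulVec.1 hY).2 hx
  have e : star x ⬝ᵥ Y.mulVec x = qf Y x := by
    unfold qf
    simp only [dotProduct, Matrix.mulVec, star_trivial, Finset.mul_sum]
    refine Finset.sum_congr rfl fun i _ => Finset.sum_congr rfl fun j _ => ?_
    ring
  rw [e] at h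
  exact h

/-- COE. -/
theorem coe : CoeStatement := by
  intro g Y hY
  set S : Set (Fin g → ℝ) := {x | ∑ i, x i ^ 2 = 1} with hS
  have hcomp : IsCompact S := by
    apply Metric.isCompact_of_isClosed_isBounded
    · exact isClosed_eq (by fun_prop) continuous_const
    · rw [isBounded_iff_forall_norm_le]
      refine ⟨1, fun x hx => ?_⟩
      rw [pi_norm_le_iff_of_nonneg zero_le_one]
      intro i
      have h1 : x i ^ 2 ≤ ∑ i, x i ^ 2 :=
        Finset.single_le_sum (f := fun i => x i ^ 2) (fun j _ => sq_nonneg _) (Finset.mem_univ i)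
      have h2 : ∑ i, x i ^ 2 = 1 := hx
      rw [h2] at h1
      rw [Real.norm_eq_abs]
      exact abs_le_one_iff_mul_self_le_one.2 (by nlinarith)
  have hcont : Continuous (qf Y) := by
    unfold qf
    fun_prop
  rcases S.eq_empty_or_nonempty with hemp | hne
  · refine ⟨1, one_pos, fun x => ?_⟩
    have hx : x = 0 := by
      by_contra hx
      have h1 : 0 < ∑ i, x i ^ 2 := by
        apply lt_of_le_of_ne (Finset.sum_nonneg fun i _ => sq_nonneg _)
        intro h0
        apply hx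
        funext i
        have h2 := (Finset.sum_eq_zero_iff_of_nonneg (fun i _ => sq_nonneg (x i))).1 h0.symm i
          (Finset.mem_univ i)
        exact pow_eq_zero_iff (two_ne_zero) |>.1 h2
      have h3 : (fun i => (Real.sqrt (∑ i, x i ^ 2))⁻¹ * x i) ∈ S := by
        show ∑ i, ((Real.sqrt (∑ i, x i ^ 2))⁻¹ * x i) ^ 2 = 1
        simp only [mul_pow]
        rw [← Finset.mul_sum, inv_pow, Real.sq_sqrt h1.le, inv_mul_cancel₀ h1.ne']
      rw [hemp] at h3
      exact h3
    rw [hx]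
    simp
  · obtain ⟨x0, hx0, hmin⟩ := hcomp.exists_isMinOn hne hcont.continuousOn
    have hx0ne : x0 ≠ 0 := by
      intro h
      have h1 : ∑ i, x0 i ^ 2 = 1 := hx0
      rw [h] at h1
      simp at h1
    refine ⟨qf Y x0, qf_pos Y hY x0 hx0ne, fun x => ?_⟩
    show qf Y x0 * ∑ i, x i ^ 2 ≤ qf Y x
    by_cases hx : ∑ i, x i ^ 2 = 0
    · have hx' : x = 0 := by
        funext i
        have h2 := (Finset.sum_eq_zero_iff_of_nonneg (fun i _ => sq_nonneg (x i))).1 hx i
          (Finset.mem_univ i)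
        exact pow_eq_zero_iff (two_ne_zero) |>.1 h2
      rw [hx, hx', mul_zero]
      unfold qf
      simp
    · have h1 : 0 < ∑ i, x i ^ 2 :=
        lt_of_le_of_ne (Finset.sum_nonneg fun i _ => sq_nonneg _) (Ne.symm hx)
      have h3 : (fun i => (Real.sqrt (∑ i, x i ^ 2))⁻¹ * x i) ∈ S := by
        show ∑ i, ((Real.sqrt (∑ i, x i ^ 2))⁻¹ * x i) ^ 2 = 1
        simp only [mul_pow]
        rw [← Finset.mul_sum, inv_pow, Real.sq_sqrt h1.le, inv_mul_cancel₀ h1.ne']
      have h4 : qf Y x0 ≤ qf Y (fun i => (Real.sqrt (∑ i, x i ^ 2))⁻¹ * x i) := hmin h3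
      rw [qf_smul, inv_pow, Real.sq_sqrt h1.le] at h4
      calc qf Y x0 * ∑ i, x i ^ 2 ≤ ((∑ i, x i ^ 2)⁻¹ * qf Y x) * ∑ i, x i ^ 2 :=
            mul_le_mul_of_nonneg_right h4 h1.le
        _ = qf Y x := by
            field_simp

end Pool.Agent.THS.H77
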