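import Pool.Agent.THS.StmtsN

/-!
THS, row HCP: comparison of heights.
-/

namespace Pool.Agent.THS.H77

open scoped BigOperators

theorem nv_nonneg {K ι : Type} [Field K] (v : AbsoluteValue K ℝ) (x : ι → K) : 0 ≤ nv v x :=
  Real.iSup_nonneg fun i => v.nonneg (x i)

theorem fp_eq {K : Type} [Field K] [NumberField K] (f : NumberField.FinitePlace K → ℝ)
    (S : Finset (NumberField.FinitePlace K)) (h : ∀ v, v ∉ S → f v = 1) :
    ∏ᶠ v, f v = ∏ v ∈ S, f v := by
  refine finprod_eq_prod_of_mulSupport_subset f ?_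
  intro v hv
  by_contra hS
  exact hv (h v hS)

theorem hcp (hfs : HfsStatement) : HcpStatement := by
  classical
  intro K _ _ ι κ _ _ m n e q C β X Y hC hβ hX hY harch hna
  have h2 : (2 : K) ≠ 0 := two_ne_zero
  -- the finite set of finite places
  have f2 : {v : NumberField.FinitePlace K | v (2 : K) ≠ 1}.Finite :=
    NumberField.FinitePlace.hasFiniteMulSupport h2
  have fβ : {v : NumberField.FinitePlace K | v β ≠ 1}.Finite :=
    NumberField.FinitePlace.hasFiniteMulSupport hβ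
  have fX : (⋃ i, {v : NumberField.FinitePlace K | nv v.val (X i) ≠ 1}).Finite :=
    Set.finite_iUnion fun i => hfs K ι (X i) (hX i)
  have fY : (⋃ j, {v : NumberField.FinitePlace K | nv v.val (Y j) ≠ 1}).Finite :=
    Set.finite_iUnion fun j => hfs K κ (Y j) (hY j)
  have fS := ((f2.union fβ).union fX).union fY
  obtain ⟨S, hS⟩ : ∃ S : Finset (NumberField.FinitePlace K), ∀ v, v ∉ S →
      v (2 : K) = 1 ∧ v β = 1 ∧ (∀ i, nv v.val (X i) = 1) ∧ ∀ j, nv v.val (Y j) = 1 := by
    refine ⟨fS.toFinset, fun v hv => ?_⟩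
    rw [Set.Finite.mem_toFinset] at hv
    refine ⟨?_, ?_, fun i => ?_, fun j => ?_⟩
    · by_contra h
      exact hv (Or.inl (Or.inl (Or.inl h)))
    · by_contra h
      exact hv (Or.inl (Or.inl (Or.inr h)))
    · by_contra h
      exact hv (Or.inl (Or.inr (Set.mem_iUnion.2 ⟨i, h⟩)))
    · by_contra h
      exact hv (Or.inr (Set.mem_iUnion.2 ⟨j, h⟩))
  -- product formula
  have pβ : (∏ w : NumberField.InfinitePlace K, w β ^ w.mult) * ∏ v ∈ S, v β = 1 := by
    rw [← fp_eq (fun v => v β) S fun v hv => (hS v hv).2.1]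
    exact NumberField.prod_abs_eq_one hβ
  have p2 : (2 : ℝ) ^ Module.finrank ℚ K * ∏ v ∈ S, v (2 : K) = 1 := by
    rw [← fp_eq (fun v => v (2 : K)) S fun v hv => (hS v hv).1]
    have h := NumberField.prod_abs_eq_one h2
    have h3 : (∏ w : NumberField.InfinitePlace K, w (2 : K) ^ w.mult)
        = (2 : ℝ) ^ Module.finrank ℚ K := by
      rw [← NumberField.InfinitePlace.sum_mult_eq, ← Finset.prod_pow_eq_pow_sum]
      refine Finset.prod_congr rfl fun w _ => ?_
      have : w (2 : K) = 2 := by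
        have h4 := NumberField.InfinitePlace.norm_embedding_eq w (2 : K)
        rw [← h4, map_ofNat]
        simp
      rw [this]
    rw [← h3]
    exact h
  -- heights
  have eX : ∀ i, Height.mulHeight (X i)
      = (∏ v : NumberField.InfinitePlace K, nv v.val (X i) ^ v.mult)
        * ∏ v ∈ S, nv v.val (X i) := by
    intro i
    rw [NumberField.mulHeight_eq (hX i)]
    congr 1
    exact fp_eq (fun v => nv v.val (X i)) S fun v hv => (hS v hv).2.2.1 i
  have eY : ∀ j, Height.mulHeight (Y j)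
      = (∏ v : NumberField.InfinitePlace K, nv v.val (Y j) ^ v.mult)
        * ∏ v ∈ S, nv v.val (Y j) := by
    intro j
    rw [NumberField.mulHeight_eq (hY j)]
    congr 1
    exact fp_eq (fun v => nv v.val (Y j)) S fun v hv => (hS v hv).2.2.2 j
  -- archimedean inequality
  have hA : ∏ i, (∏ v : NumberField.InfinitePlace K, nv v.val (X i) ^ v.mult)
      ≤ C ^ Module.finrank ℚ K * (∏ w : NumberField.InfinitePlace K, w β ^ w.mult) ^ e
        * ∏ j, (∏ v : NumberField.InfinitePlace K, nv v.val (Y j) ^ v.mult) := by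
    rw [Finset.prod_comm, Finset.prod_comm (s := (Finset.univ : Finset (Fin n)))]
    rw [← NumberField.InfinitePlace.sum_mult_eq, ← Finset.prod_pow_eq_pow_sum, ← Finset.prod_pow,
      ← Finset.prod_mul_distrib, ← Finset.prod_mul_distrib]
    refine Finset.prod_le_prod (fun v _ => Finset.prod_nonneg fun i _ =>
      pow_nonneg (nv_nonneg _ _) _) fun v _ => ?_
    have h := pow_le_pow_left₀ (Finset.prod_nonneg fun i _ => nv_nonneg _ _) (harch v) v.mult
    rw [mul_pow, mul_pow, ← Finset.prod_pow, ← Finset.prod_pow, ← pow_mul, mul_comm e, pow_mul] at h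
    exact h
  -- nonarchimedean inequality
  have hN : (∏ v ∈ S, v (2 : K)) ^ q * ∏ i, (∏ v ∈ S, nv v.val (X i))
      ≤ (∏ v ∈ S, v β) ^ e * ∏ j, (∏ v ∈ S, nv v.val (Y j)) := by
    rw [Finset.prod_comm, Finset.prod_comm (s := (Finset.univ : Finset (Fin n)))]
    rw [← Finset.prod_pow, ← Finset.prod_pow, ← Finset.prod_mul_distrib, ← Finset.prod_mul_distrib]
    refine Finset.prod_le_prod (fun v _ => mul_nonneg (pow_nonneg (apply_nonneg v _) _)
      (Finset.prod_nonneg fun i _ => nv_nonneg _ _)) fun v _ => hna v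
  have e1 : ∏ i, Height.mulHeight (X i)
      = (∏ i, (∏ v : NumberField.InfinitePlace K, nv v.val (X i) ^ v.mult))
        * ∏ i, (∏ v ∈ S, nv v.val (X i)) := by
    rw [← Finset.prod_mul_distrib]
    exact Finset.prod_congr rfl fun i _ => eX i
  have e2 : ∏ j, Height.mulHeight (Y j)
      = (∏ j, (∏ v : NumberField.InfinitePlace K, nv v.val (Y j) ^ v.mult))
        * ∏ j, (∏ v ∈ S, nv v.val (Y j)) := by
    rw [← Finset.prod_mul_distrib]
    exact Finset.prod_congr rfl fun j _ => eY j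
  rw [e1, e2]
  have na : 0 ≤ ∏ i, (∏ v : NumberField.InfinitePlace K, nv v.val (X i) ^ v.mult) :=
    Finset.prod_nonneg fun i _ => Finset.prod_nonneg fun v _ => pow_nonneg (nv_nonneg _ _) _
  have nb : 0 ≤ ∏ i, (∏ v ∈ S, nv v.val (X i)) :=
    Finset.prod_nonneg fun i _ => Finset.prod_nonneg fun v _ => nv_nonneg _ _
  have nf : 0 ≤ (∏ v ∈ S, v (2 : K)) ^ q * ∏ i, (∏ v ∈ S, nv v.val (X i)) :=
    mul_nonneg (pow_nonneg (Finset.prod_nonneg fun v _ => apply_nonneg v _) _) nb
  generalize (∏ i, (∏ v : NumberField.InfinitePlace K, nv v.val (X i) ^ v.mult)) = a at *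
  generalize (∏ i, (∏ v ∈ S, nv v.val (X i))) = b at *
  generalize (∏ j, (∏ v : NumberField.InfinitePlace K, nv v.val (Y j) ^ v.mult)) = c at *
  generalize (∏ j, (∏ v ∈ S, nv v.val (Y j))) = d at *
  generalize (∏ w : NumberField.InfinitePlace K, w β ^ w.mult) = A at *
  generalize (∏ v ∈ S, v β) = B at *
  generalize (∏ v ∈ S, v (2 : K)) = D at *
  generalize Module.finrank ℚ K = r at *
  have hmul := mul_le_mul hA hN nf (na.trans hA)
  have h5 : (2 : ℝ) ^ r ^ 1 = 2 ^ r := by rw [pow_one]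
  have k1 : a * b = ((2 : ℝ) ^ r) ^ q * (a * (D ^ q * b)) := by
    have : ((2 : ℝ) ^ r) ^ q * (a * (D ^ q * b)) = ((2 : ℝ) ^ r * D) ^ q * (a * b) := by
      rw [mul_pow]; ring
    rw [this, p2, one_pow, one_mul]
  have k2 : (C * 2 ^ q) ^ r * (c * d)
      = ((2 : ℝ) ^ r) ^ q * (C ^ r * A ^ e * c * (B ^ e * d)) := by
    have : ((2 : ℝ) ^ r) ^ q * (C ^ r * A ^ e * c * (B ^ e * d))
        = ((2 : ℝ) ^ r) ^ q * (C ^ r * (A * B) ^ e * (c * d)) := by
      rw [mul_pow A B]; ring
    rw [this, pβ, one_pow, mul_one, mul_pow, ← pow_mul, ← pow_mul, mul_comm q r]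
    ring
  rw [k1, k2]
  exact mul_le_mul_of_nonneg_left hmul (pow_nonneg (pow_nonneg (by norm_num) _) _)

end Pool.Agent.THS.H77
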